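import Pool.Agent.H59.L.S8.W695.KH.Defs

set_option autoImplicit false

namespace Pool.Agent.W214.KH

open MeasureTheory Set Filter Topology
open scoped ENNReal InnerProductSpace Pointwise
open Pool.Agent.W695.KH

theorem meas_inner {κ : Type} [Fintype κ] (a : Eu κ) : Measurable fun x : Eu κ => ⟪a, x⟫_ℝ :=
  (continuous_const.inner continuous_id).measurable

theorem sec_ok (h1 : S_marg) (h2 : S_oned) : S_sec := by
  obtain ⟨C, hC, h2⟩ := h2
  refine ⟨C, hC, ?_⟩
  intro κ _ Ω ho hc hb h0 hs a ha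
  obtain ⟨hfin, φ, hm, hpos, heven, hlog, hcpt, hsec, hint⟩ := h1 κ Ω ho hc hb h0 hs a ha
  obtain ⟨hmax, hi1, hi2, hmain⟩ := h2 φ hm hpos heven hlog hcpt
  have hvol : volume Ω = ENNReal.ofReal (∫ r, φ r) := by
    have h := hint (fun _ => 1) measurable_const
    simp only [lintegral_const, Measure.restrict_apply MeasurableSet.univ, univ_inter, one_mul] at h
    rw [h, ofReal_integral_eq_lintegral_ofReal hi1 (Eventually.of_forall hpos)]
  have hV0 : 0 ≤ ∫ r, φ r := integral_nonneg hpos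
  have hvolR : (volume Ω).toReal = ∫ r, φ r := by
    rw [hvol, ENNReal.toReal_ofReal hV0]
  have hVpos : 0 < volume Ω := ho.measure_pos _ ⟨0, h0⟩
  have hVpos' : 0 < ∫ r, φ r := by
    rw [hvol] at hVpos
    exact ENNReal.ofReal_pos.mp hVpos
  have hsq : ∫ x in Ω, ⟪a, x⟫_ℝ ^ 2 = ∫ r, r ^ 2 * φ r := by
    have h := hint (fun r => ENNReal.ofReal (r ^ 2)) (by fun_prop)
    have hmeas : AEStronglyMeasurable (fun x : Eu κ => ⟪a, x⟫_ℝ ^ 2) (volume.restrict Ω) :=
      ((meas_inner a).pow_const 2).aestronglyMeasurable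
    rw [integral_eq_lintegral_of_nonneg_ae (Eventually.of_forall fun x => sq_nonneg _) hmeas]
    rw [h]
    have e : (fun r => ENNReal.ofReal (r ^ 2) * ENNReal.ofReal (φ r)) =
        fun r => ENNReal.ofReal (r ^ 2 * φ r) := by
      funext r
      rw [ENNReal.ofReal_mul (sq_nonneg r)]
    rw [e, ← ofReal_integral_eq_lintegral_ofReal hi2
      (Eventually.of_forall fun r => mul_nonneg (sq_nonneg r) (hpos r))]
    rw [ENNReal.toReal_ofReal]
    exact integral_nonneg fun r => mul_nonneg (sq_nonneg r) (hpos r)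
  refine ⟨hfin, ?_, ?_⟩
  · unfold EV
    rw [hvolR, hsec, hsq, ← mul_div_assoc, div_le_iff₀ hVpos']
    calc φ 0 ^ 2 * ∫ r, r ^ 2 * φ r ≤ C * (∫ r, φ r) ^ 3 := hmain
      _ = C * (∫ r, φ r) ^ 2 * ∫ r, φ r := by ring
  · intro ε hε
    have hg : Measurable ((Ioc 0 ε).indicator (fun _ : ℝ => (1 : ℝ≥0∞))) :=
      measurable_const.indicator measurableSet_Ioc
    have h := hint _ hg
    have hS : MeasurableSet {x : Eu κ | 0 < ⟪a, x⟫_ℝ ∧ ⟪a, x⟫_ℝ ≤ ε} := by
      have : {x : Eu κ | 0 < ⟪a, x⟫_ℝ ∧ ⟪a, x⟫_ℝ ≤ ε} = (fun x : Eu κ => ⟪a, x⟫_ℝ) ⁻¹' Ioc 0 ε := rfl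
      rw [this]
      exact meas_inner a measurableSet_Ioc
    have e1 : (fun x : Eu κ => (Ioc 0 ε).indicator (fun _ : ℝ => (1 : ℝ≥0∞)) ⟪a, x⟫_ℝ) =
        {x : Eu κ | 0 < ⟪a, x⟫_ℝ ∧ ⟪a, x⟫_ℝ ≤ ε}.indicator (fun _ => 1) := by
      funext x
      rfl
    rw [e1, lintegral_indicator hS, lintegral_const, one_mul, Measure.restrict_restrict hS,
      Measure.restrict_apply MeasurableSet.univ, univ_inter, inter_comm] at h
    rw [h]
    have e2 : (fun r => (Ioc 0 ε).indicator (fun _ : ℝ => (1 : ℝ≥0∞)) r * ENNReal.ofReal (φ r)) =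
        (Ioc 0 ε).indicator (fun r => ENNReal.ofReal (φ r)) := by
      funext r
      by_cases hr : r ∈ Ioc 0 ε
      · rw [indicator_of_mem hr, indicator_of_mem hr, one_mul]
      · rw [indicator_of_notMem hr, indicator_of_notMem hr, zero_mul]
    rw [e2, lintegral_indicator measurableSet_Ioc]
    calc ∫⁻ r in Ioc 0 ε, ENNReal.ofReal (φ r)
        ≤ ∫⁻ r in Ioc 0 ε, ENNReal.ofReal (φ 0) :=
          lintegral_mono fun r => ENNReal.ofReal_le_ofReal (hmax r)
      _ = ENNReal.ofReal ε * sec Ω a := by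
          rw [lintegral_const, Measure.restrict_apply MeasurableSet.univ, univ_inter,
            Real.volume_Ioc, sub_zero, mul_comm, ← hsec, ENNReal.ofReal_toReal hfin]

theorem half_ok (h1 : S_marg) (hS : S_sec) : S_half := by
  obtain ⟨C, hC, hS⟩ := hS
  refine ⟨4 * C, by positivity, ?_⟩
  intro κ _ D hD hconv hne hsymm μ hμ a t ha ht
  set Ω := interior D with hΩ
  have ho : IsOpen Ω := isOpen_interior
  have hc : Convex ℝ Ω := hconv.interior
  have hb : Bornology.IsBounded Ω := hD.isBounded.subset interior_subset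
  have hsymD : -D = D := by
    ext x
    rw [Set.mem_neg]
    constructor
    · intro h
      have := hsymm _ h
      rwa [neg_neg] at this
    · intro h
      exact hsymm _ h
  have hs : ∀ x ∈ Ω, -x ∈ Ω := by
    intro x hx
    have h2 := (Homeomorph.neg (Eu κ)).preimage_interior D
    have h3 : (Homeomorph.neg (Eu κ)) ⁻¹' D = D := hsymD
    rw [h3] at h2
    have h4 : x ∈ (Homeomorph.neg (Eu κ)) ⁻¹' interior D := by
      rw [h2]; exact hx
    exact h4
  have h0 : (0 : Eu κ) ∈ Ω := by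
    obtain ⟨x, hx⟩ := hne
    have h := hc hx (hs x hx) (by norm_num : (0 : ℝ) ≤ 1 / 2) (by norm_num : (0 : ℝ) ≤ 1 / 2)
      (by norm_num)
    simpa using h
  obtain ⟨hfin, hmain, hslab⟩ := hS κ Ω ho hc hb h0 hs a ha
  obtain ⟨-, φ, hm, hpos, heven, hlog, hcpt, hsec, hint⟩ := h1 κ Ω ho hc hb h0 hs a ha
  have hae : Ω =ᵐ[volume] D := by
    have hfr : volume (frontier D) = 0 := hconv.addHaar_frontier _
    exact interior_ae_eq_of_null_frontier hfr
  have hrestr : (volume.restrict D : Measure (Eu κ)) = volume.restrict Ω :=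
    (Measure.restrict_congr_set hae).symm
  have hvolD : volume D = volume Ω := (measure_congr hae).symm
  have hV0 : volume Ω ≠ 0 := (ho.measure_pos _ ⟨0, h0⟩).ne'
  have hVt : volume Ω ≠ ⊤ := hb.measure_lt_top.ne
  rw [hvolD, hrestr] at hμ
  -- hyperplane is null
  have hmi := meas_inner a
  have hplane : volume.restrict Ω {x : Eu κ | ⟪a, x⟫_ℝ = 0} = 0 := by
    have hg : Measurable (({0} : Set ℝ).indicator (fun _ : ℝ => (1 : ℝ≥0∞))) :=
      measurable_const.indicator (measurableSet_singleton 0)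
    have h := hint _ hg
    have hS0 : MeasurableSet {x : Eu κ | ⟪a, x⟫_ℝ = 0} := by
      have : {x : Eu κ | ⟪a, x⟫_ℝ = 0} = (fun x : Eu κ => ⟪a, x⟫_ℝ) ⁻¹' {0} := rfl
      rw [this]
      exact hmi (measurableSet_singleton 0)
    have e1 : (fun x : Eu κ => ({0} : Set ℝ).indicator (fun _ : ℝ => (1 : ℝ≥0∞)) ⟪a, x⟫_ℝ) =
        {x : Eu κ | ⟪a, x⟫_ℝ = 0}.indicator (fun _ => 1) := by
      funext x
      rfl
    rw [e1, lintegral_indicator hS0, lintegral_const, one_mul,
      Measure.restrict_apply MeasurableSet.univ, univ_inter] at h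
    rw [h]
    have e2 : (fun r => ({0} : Set ℝ).indicator (fun _ : ℝ => (1 : ℝ≥0∞)) r *
        ENNReal.ofReal (φ r)) = ({0} : Set ℝ).indicator (fun r => ENNReal.ofReal (φ r)) := by
      funext r
      by_cases hr : r ∈ ({0} : Set ℝ)
      · rw [indicator_of_mem hr, indicator_of_mem hr, one_mul]
      · rw [indicator_of_notMem hr, indicator_of_notMem hr, zero_mul]
    rw [e2, lintegral_indicator (measurableSet_singleton 0), Measure.restrict_singleton]
    simp
  set H : Set (Eu κ) := {x | ⟪a, x⟫_ℝ ≤ 0} with hH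
  have hHm : MeasurableSet H := by
    have : H = (fun x : Eu κ => ⟪a, x⟫_ℝ) ⁻¹' Iic 0 := rfl
    rw [this]
    exact hmi measurableSet_Iic
  -- symmetry
  have hnegmp : MeasurePreserving (fun x : Eu κ => -x) volume volume :=
    Measure.measurePreserving_neg _
  have hvH : volume.restrict Ω H = volume.restrict Ω Hᶜ := by
    have e1 : volume.restrict Ω H = volume.restrict Ω {x : Eu κ | 0 ≤ ⟪a, x⟫_ℝ} := by
      have hm2 : MeasurableSet {x : Eu κ | 0 ≤ ⟪a, x⟫_ℝ} := by
        have : {x : Eu κ | 0 ≤ ⟪a, x⟫_ℝ} = (fun x : Eu κ => ⟪a, x⟫_ℝ) ⁻¹' Ici 0 := rfl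
        rw [this]
        exact hmi measurableSet_Ici
      rw [Measure.restrict_apply hHm, Measure.restrict_apply hm2]
      have := hnegmp.measure_preimage (s := H ∩ Ω)
        (hHm.inter ho.measurableSet).nullMeasurableSet
      rw [← this]
      congr 1
      ext x
      simp only [mem_preimage, mem_inter_iff, hH, mem_ofPred_eq, inner_neg_right, neg_nonpos]
      constructor
      · rintro ⟨h, h'⟩
        refine ⟨h, ?_⟩
        have := hs _ h'
        rwa [neg_neg] at this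
      · rintro ⟨h, h'⟩
        exact ⟨h, hs _ h'⟩
    rw [e1]
    have hsub : {x : Eu κ | 0 ≤ ⟪a, x⟫_ℝ} = Hᶜ ∪ {x : Eu κ | ⟪a, x⟫_ℝ = 0} := by
      ext x
      simp only [mem_ofPred_eq, mem_union, hH, mem_compl_iff, not_le]
      constructor
      · intro h
        rcases h.lt_or_eq with h | h
        · exact Or.inl h
        · exact Or.inr h.symm
      · rintro (h | h)
        · exact h.le
        · exact h.ge
    apply le_antisymm
    · rw [hsub]
      refine (measure_union_le _ _).trans ?_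
      rw [hplane, add_zero]
    · apply measure_mono
      rw [hsub]
      exact subset_union_left
  have hprob : μ univ = 1 := by
    rw [hμ, Measure.smul_apply, Measure.restrict_apply MeasurableSet.univ, univ_inter, smul_eq_mul,
      ENNReal.inv_mul_cancel hV0 hVt]
  have hμH : μ H = μ Hᶜ := by
    rw [hμ, Measure.smul_apply, Measure.smul_apply, hvH]
  have hhalf : μ H = 1 / 2 := by
    have h := measure_add_measure_compl (μ := μ) hHm
    rw [← hμH, hprob, ← two_mul] at h
    rw [ENNReal.eq_div_iff (by norm_num) (by norm_num)]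
    exact h
  have hmin : min (μ H) (1 - μ H) = 1 / 2 := by
    rw [hhalf]
    have : (1 : ℝ≥0∞) - 1 / 2 = 1 / 2 := by
      rw [one_div, ENNReal.one_sub_inv_two]
    rw [this, min_self]
  -- liminf bound
  have hlim : liminf (fun ε : ℝ => (μ (Metric.thickening ε H) - μ H) / ENNReal.ofReal ε)
      (𝓝[>] 0) ≤ (volume Ω)⁻¹ * sec Ω a := by
    have hev : ∀ᶠ ε : ℝ in 𝓝[>] 0, (μ (Metric.thickening ε H) - μ H) / ENNReal.ofReal ε ≤
        (volume Ω)⁻¹ * sec Ω a := by
      filter_upwards [self_mem_nhdsWithin] with ε hε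
      have hε0 : (0 : ℝ) < ε := hε
      have hsub : Metric.thickening ε H ⊆
          H ∪ {x : Eu κ | 0 < ⟪a, x⟫_ℝ ∧ ⟪a, x⟫_ℝ ≤ ε} := by
        intro x hx
        rw [Metric.mem_thickening_iff] at hx
        obtain ⟨y, hy, hxy⟩ := hx
        by_cases hx0 : ⟪a, x⟫_ℝ ≤ 0
        · exact Or.inl hx0
        · right
          refine ⟨not_le.mp hx0, ?_⟩
          have h3 : ⟪a, x⟫_ℝ = ⟪a, y⟫_ℝ + ⟪a, x - y⟫_ℝ := by
            rw [← inner_add_right]; congr 1; abel
          have h4 : ⟪a, x - y⟫_ℝ ≤ ‖x - y‖ := by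
            have := real_inner_le_norm a (x - y)
            rwa [ha, one_mul] at this
          have h5 : ‖x - y‖ < ε := by rwa [← dist_eq_norm]
          have h6 : ⟪a, y⟫_ℝ ≤ 0 := hy
          linarith
      have hb1 : μ (Metric.thickening ε H) - μ H ≤
          (volume Ω)⁻¹ * (ENNReal.ofReal ε * sec Ω a) := by
        rw [tsub_le_iff_left]
        refine (measure_mono hsub).trans ((measure_union_le _ _).trans ?_)
        refine add_le_add le_rfl ?_
        rw [hμ, Measure.smul_apply, smul_eq_mul]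
        refine mul_le_mul_right ?_ _
        rw [Measure.restrict_apply]
        · rw [inter_comm]
          exact hslab ε hε0
        · have : {x : Eu κ | 0 < ⟪a, x⟫_ℝ ∧ ⟪a, x⟫_ℝ ≤ ε} =
            (fun x : Eu κ => ⟪a, x⟫_ℝ) ⁻¹' Ioc 0 ε := rfl
          rw [this]
          exact hmi measurableSet_Ioc
      have hε1 : ENNReal.ofReal ε ≠ 0 := (ENNReal.ofReal_pos.mpr hε0).ne'
      rw [ENNReal.div_le_iff hε1 ENNReal.ofReal_ne_top]
      refine hb1.trans (le_of_eq ?_)
      ring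
    calc liminf (fun ε : ℝ => (μ (Metric.thickening ε H) - μ H) / ENNReal.ofReal ε) (𝓝[>] 0)
        ≤ liminf (fun _ : ℝ => (volume Ω)⁻¹ * sec Ω a) (𝓝[>] 0) := liminf_le_liminf hev
      _ = (volume Ω)⁻¹ * sec Ω a := liminf_const _
  rw [hmin] at ht
  have ht2 : t ≤ 2 * ((volume Ω)⁻¹ * sec Ω a) := by
    have h := ht.trans hlim
    calc t = 2 * (t * (1 / 2)) := by
          rw [mul_comm t, ← mul_assoc, one_div, ENNReal.mul_inv_cancel (by norm_num) (by norm_num),
            one_mul]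
      _ ≤ _ := mul_le_mul_right h _
  -- finish
  have hEV : EV D (fun x => ⟪a, x⟫_ℝ ^ 2) = EV Ω (fun x => ⟪a, x⟫_ℝ ^ 2) := by
    unfold EV
    rw [hvolD, hrestr]
  rw [hEV]
  set W := EV Ω (fun x => ⟪a, x⟫_ℝ ^ 2) with hW
  have hW0 : 0 ≤ W := by
    rw [hW]
    unfold EV
    exact div_nonneg (integral_nonneg fun x => sq_nonneg _) ENNReal.toReal_nonneg
  set v : ℝ := (volume Ω).toReal with hv
  set q : ℝ := (sec Ω a).toReal with hq
  have hv0 : 0 < v := ENNReal.toReal_pos hV0 hVt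
  have hq0 : 0 ≤ q := ENNReal.toReal_nonneg
  have e1 : (volume Ω)⁻¹ * sec Ω a = ENNReal.ofReal (v⁻¹ * q) := by
    rw [ENNReal.ofReal_mul (inv_nonneg.mpr hv0.le), ENNReal.ofReal_inv_of_pos hv0, hv, hq,
      ENNReal.ofReal_toReal hVt, ENNReal.ofReal_toReal hfin]
  rw [e1] at ht2
  calc t ^ 2 * ENNReal.ofReal W ≤ (2 * ENNReal.ofReal (v⁻¹ * q)) ^ 2 * ENNReal.ofReal W := by
        gcongr
    _ = ENNReal.ofReal ((2 * (v⁻¹ * q)) ^ 2 * W) := by
        have e2 : (2 : ℝ≥0∞) = ENNReal.ofReal 2 := by simp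
        rw [e2, ← ENNReal.ofReal_mul (by norm_num), ← ENNReal.ofReal_pow (by positivity),
          ← ENNReal.ofReal_mul (by positivity)]
    _ ≤ ENNReal.ofReal (4 * C) := by
        apply ENNReal.ofReal_le_ofReal
        have e3 : (2 * (v⁻¹ * q)) ^ 2 * W = 4 * (q ^ 2 * W) / v ^ 2 := by
          field_simp
          ring
        rw [e3, div_le_iff₀ (by positivity)]
        nlinarith [hmain]

theorem t_sec (h1 : S_marg) (h2 : S_oned) : S_sec ∧ S_half :=
  ⟨sec_ok h1 h2, half_ok h1 (sec_ok h1 h2)⟩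

end Pool.Agent.W214.KH
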